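import Pool.Agent.helper47.SPI.Spec

set_option autoImplicit false

/-!
# Row SHG of project SPI: Burgess shift
-/

namespace Pool.Agent.SPI

open Finset Pool.Agent.helper85.PG
open scoped Pointwise

theorem SHG_nsum (F : ℕ → ℂ) (hF : ∀ x, ‖F x‖ ≤ 1) (a : ℕ) : ‖∑ x ∈ range a, F x‖ ≤ a := by
  refine (norm_sum_le _ _).trans ((sum_le_sum fun x _ => hF x).trans (le_of_eq ?_))
  simp

theorem SHG_shift (F : ℕ → ℂ) (hF : ∀ x, ‖F x‖ ≤ 1) (h a : ℕ) :
    ‖∑ x ∈ range h, F x - ∑ x ∈ range h, F (x + a)‖ ≤ 2 * a := by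
  have h1 : ∑ x ∈ range (h + a), F x = ∑ x ∈ range h, F x + ∑ x ∈ range a, F (h + x) :=
    sum_range_add F h a
  have h2 : ∑ x ∈ range (a + h), F x = ∑ x ∈ range a, F x + ∑ x ∈ range h, F (a + x) :=
    sum_range_add F a h
  have h3 : ∑ x ∈ range h, F x - ∑ x ∈ range h, F (x + a) =
      ∑ x ∈ range a, F x - ∑ x ∈ range a, F (h + x) := by
    have h4 : ∑ x ∈ range h, F (x + a) = ∑ x ∈ range h, F (a + x) :=
      sum_congr rfl fun x _ => by rw [add_comm]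
    rw [h4]
    rw [add_comm a h] at h2
    linear_combination h2 - h1
  rw [h3]
  have h5 := SHG_nsum F hF a
  have h6 := SHG_nsum (fun x => F (h + x)) (fun x => hF _) a
  refine (norm_sub_le _ _).trans ?_
  linarith

section

variable {p : ℕ} [Fact p.Prime] (χ : MulChar (ZMod p) ℂ)

omit [Fact p.Prime] in
theorem SHG_le (x : ZMod p) : ‖χ x‖ ≤ 1 := DirichletCharacter.norm_le_one (n := p) χ x

theorem SHG_unit {m : ZMod p} (hm : m ≠ 0) : χ m * (starRingEnd ℂ) (χ m) = 1 := by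
  have h := DirichletCharacter.unit_norm_eq_one (n := p) χ (Units.mk0 m hm)
  rw [Units.val_mk0] at h
  rw [Complex.mul_conj, Complex.normSq_eq_norm_sq, h]
  norm_num

theorem SHG_term (s u : ZMod p) (x : ZMod p) : ‖χ (s + x) * (starRingEnd ℂ) (χ (s + u + x))‖ ≤ 1 := by
  rw [norm_mul, RCLike.norm_conj]
  exact mul_le_one₀ (SHG_le χ _) (norm_nonneg _) (SHG_le χ _)

omit [Fact p.Prime] in
theorem SHG_cr0 (h : ℕ) (s u : ZMod p) : 0 ≤ cr χ h s u := norm_nonneg _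

theorem SHG_crh (h : ℕ) (s u : ZMod p) : cr χ h s u ≤ h :=
  SHG_nsum (fun x : ℕ => χ (s + (x : ZMod p)) * (starRingEnd ℂ) (χ (s + u + (x : ZMod p))))
    (fun x => SHG_term χ s u x) h

theorem SHG_one (h m V : ℕ) (s u : ZMod p) (hm : (m : ZMod p) ≠ 0) (hV : 0 < V) :
    cr χ h s ((m : ZMod p) * u) ≤
      1 / (V : ℝ) * ∑ x ∈ range h, cr χ V ((s + (x : ZMod p)) / (m : ZMod p)) u + 2 * m * V := by
  set F : ℕ → ℂ := fun x => χ (s + (x : ZMod p)) *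
    (starRingEnd ℂ) (χ (s + (m : ZMod p) * u + (x : ZMod p))) with hFd
  have hF1 : ∀ x, ‖F x‖ ≤ 1 := fun x => SHG_term χ s _ x
  have hcr : cr χ h s ((m : ZMod p) * u) = ‖∑ x ∈ range h, F x‖ := rfl
  have hV0 : (0 : ℝ) < V := by exact_mod_cast hV
  have hkey : ∀ x : ℕ, ‖∑ v ∈ range V, F (x + m * v)‖ = cr χ V ((s + (x : ZMod p)) / (m : ZMod p)) u := by
    intro x
    unfold cr
    congr 1
    refine sum_congr rfl fun v _ => ?_
    set r : ZMod p := (s + (x : ZMod p)) / (m : ZMod p) with hr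
    have hmr : (m : ZMod p) * r = s + x := mul_div_cancel₀ _ hm
    have e1 : s + ((x + m * v : ℕ) : ZMod p) = (m : ZMod p) * (r + v) := by
      rw [mul_add, hmr]
      push_cast
      ring
    have e2 : s + (m : ZMod p) * u + ((x + m * v : ℕ) : ZMod p) = (m : ZMod p) * (r + u + v) := by
      rw [mul_add, mul_add, hmr]
      push_cast
      ring
    simp only [hFd]
    rw [e1, e2, map_mul, map_mul, map_mul]
    have h3 := SHG_unit χ hm
    linear_combination (χ (r + v) * (starRingEnd ℂ) (χ (r + u + v))) * h3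
  have h1 : (V : ℂ) * ∑ x ∈ range h, F x = ∑ x ∈ range h, ∑ v ∈ range V, F (x + m * v) +
      ∑ v ∈ range V, (∑ x ∈ range h, F x - ∑ x ∈ range h, F (x + m * v)) := by
    rw [sum_sub_distrib, sum_comm, sum_const, card_range, nsmul_eq_mul]
    ring
  have h2 : (V : ℝ) * ‖∑ x ∈ range h, F x‖ ≤
      ∑ x ∈ range h, cr χ V ((s + (x : ZMod p)) / (m : ZMod p)) u + V * (2 * m * V) := by
    have e : (V : ℝ) * ‖∑ x ∈ range h, F x‖ = ‖(V : ℂ) * ∑ x ∈ range h, F x‖ := by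
      rw [norm_mul, Complex.norm_natCast]
    rw [e, h1]
    refine (norm_add_le _ _).trans (add_le_add ?_ ?_)
    · refine (norm_sum_le _ _).trans (le_of_eq ?_)
      exact sum_congr rfl fun x _ => hkey x
    · refine (norm_sum_le _ _).trans ?_
      have h5 : ∀ v ∈ range V, ‖∑ x ∈ range h, F x - ∑ x ∈ range h, F (x + m * v)‖ ≤ 2 * m * V := by
        intro v hv
        have hvV : (v : ℝ) ≤ V := by exact_mod_cast (mem_range.1 hv).le
        refine (SHG_shift F hF1 h (m * v)).trans ?_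
        push_cast
        have hm0 : (0 : ℝ) ≤ m := Nat.cast_nonneg m
        nlinarith
      refine (sum_le_sum h5).trans (le_of_eq ?_)
      rw [sum_const, card_range, nsmul_eq_mul]
  rw [hcr]
  have h3 : ‖∑ x ∈ range h, F x‖ ≤ (∑ x ∈ range h, cr χ V ((s + (x : ZMod p)) / (m : ZMod p)) u +
      V * (2 * m * V)) / V := by
    rw [le_div_iff₀ hV0, mul_comm]
    exact h2
  refine h3.trans (le_of_eq ?_)
  field_simp

theorem SHG_two (ζ s : ZMod p) (h M m V : ℕ) (hM : 0 < M) (h1 : M < m) (h2 : m ≤ 2 * M)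
    (hm : (m : ZMod p) ≠ 0) (hV : 0 < V) :
    (m : ℝ) * ∑ z ∈ Icc (-((h / m : ℕ) : ℤ)) ((h / m : ℕ) : ℤ),
      cr χ h s (ζ * ((m : ZMod p) * (z : ZMod p))) ≤
      M * (2 / (V : ℝ) * ∑ z ∈ (Icc (-((h / M : ℕ) : ℤ)) ((h / M : ℕ) : ℤ)).erase 0,
        ∑ x ∈ range h, cr χ V ((s + (x : ZMod p)) / (m : ZMod p)) (ζ * (z : ZMod p)) + 10 * h * V) := by
  have hV0 : (0 : ℝ) < V := by exact_mod_cast hV
  have hV1 : (1 : ℝ) ≤ V := by exact_mod_cast hV
  have hm0 : (0 : ℝ) ≤ m := Nat.cast_nonneg m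
  have hh0 : (0 : ℝ) ≤ h := Nat.cast_nonneg h
  have hmM : (m : ℝ) ≤ 2 * M := by exact_mod_cast h2
  set G : ℤ → ℝ := fun z => ∑ x ∈ range h,
    cr χ V ((s + (x : ZMod p)) / (m : ZMod p)) (ζ * (z : ZMod p)) with hG
  have hG0 : ∀ z, 0 ≤ G z := fun z => sum_nonneg fun x _ => SHG_cr0 χ _ _ _
  have hz0 : (0 : ℤ) ∈ Icc (-((h / m : ℕ) : ℤ)) ((h / m : ℕ) : ℤ) := by
    have hq : (0 : ℤ) ≤ ((h / m : ℕ) : ℤ) := Int.natCast_nonneg _
    exact mem_Icc.2 ⟨neg_nonpos.2 hq, hq⟩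
  rw [← add_sum_erase _ _ hz0]
  have b1 : ∀ z : ℤ, cr χ h s (ζ * ((m : ZMod p) * (z : ZMod p))) ≤ 1 / (V : ℝ) * G z + 2 * m * V := by
    intro z
    have e : ζ * ((m : ZMod p) * (z : ZMod p)) = (m : ZMod p) * (ζ * (z : ZMod p)) := by ring
    rw [e]
    exact SHG_one χ h m V s _ hm hV
  have hle : h / m ≤ h / M := Nat.div_le_div_left h1.le hM
  have b2 : ∑ z ∈ (Icc (-((h / m : ℕ) : ℤ)) ((h / m : ℕ) : ℤ)).erase 0,
      cr χ h s (ζ * ((m : ZMod p) * (z : ZMod p))) ≤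
      1 / (V : ℝ) * (∑ z ∈ (Icc (-((h / M : ℕ) : ℤ)) ((h / M : ℕ) : ℤ)).erase 0, G z) +
        (2 * (h / m : ℕ) : ℝ) * (2 * m * V) := by
    refine (sum_le_sum fun z _ => b1 z).trans ?_
    rw [sum_add_distrib, ← mul_sum, sum_const, nsmul_eq_mul]
    refine add_le_add ?_ ?_
    · refine mul_le_mul_of_nonneg_left ?_ (by positivity)
      refine sum_le_sum_of_subset_of_nonneg (erase_subset_erase _ ?_) fun z _ _ => hG0 z
      refine Icc_subset_Icc ?_ ?_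
      · have : ((h / m : ℕ) : ℤ) ≤ ((h / M : ℕ) : ℤ) := by exact_mod_cast hle
        omega
      · exact_mod_cast hle
    · refine mul_le_mul_of_nonneg_right (le_of_eq ?_) (by positivity)
      rw [card_erase_of_mem hz0, Int.card_Icc]
      have : ((((h / m : ℕ) : ℤ) + 1 - -((h / m : ℕ) : ℤ)).toNat - 1 : ℕ) = 2 * (h / m) := by omega
      rw [this]
      push_cast
      ring
  have b3 : (m : ℝ) * ((h / m : ℕ) : ℝ) ≤ h := by
    have := Nat.mul_div_le h m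
    exact_mod_cast this
  have b4 := SHG_crh χ h s (ζ * ((m : ZMod p) * ((0 : ℤ) : ZMod p)))
  set T := ∑ z ∈ (Icc (-((h / M : ℕ) : ℤ)) ((h / M : ℕ) : ℤ)).erase 0, G z with hT
  have hT0 : 0 ≤ T := sum_nonneg fun z _ => hG0 z
  have hTV : 0 ≤ 1 / (V : ℝ) * T := by positivity
  have c1 : (m : ℝ) * (1 / (V : ℝ) * T) ≤ M * (2 / (V : ℝ) * T) := by
    have := mul_le_mul_of_nonneg_right hmM hTV
    refine this.trans (le_of_eq ?_)
    ring
  have c2 : (m : ℝ) * ((2 * (h / m : ℕ) : ℝ) * (2 * m * V)) ≤ 8 * h * M * V := by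
    calc (m : ℝ) * ((2 * (h / m : ℕ) : ℝ) * (2 * m * V)) = (m * ((h / m : ℕ) : ℝ)) * (4 * m * V) := by ring
      _ ≤ h * (4 * m * V) := mul_le_mul_of_nonneg_right b3 (by positivity)
      _ = (4 * h * V) * m := by ring
      _ ≤ (4 * h * V) * (2 * M) := mul_le_mul_of_nonneg_left hmM (by positivity)
      _ = _ := by ring
  have c3 : (m : ℝ) * h ≤ 2 * h * M * V := by
    calc (m : ℝ) * h ≤ 2 * M * h := mul_le_mul_of_nonneg_right hmM hh0
      _ = (2 * M * h) * 1 := by ring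
      _ ≤ (2 * M * h) * V := mul_le_mul_of_nonneg_left hV1 (by positivity)
      _ = _ := by ring
  calc (m : ℝ) * (cr χ h s (ζ * ((m : ZMod p) * ((0 : ℤ) : ZMod p))) +
        ∑ z ∈ (Icc (-((h / m : ℕ) : ℤ)) ((h / m : ℕ) : ℤ)).erase 0,
          cr χ h s (ζ * ((m : ZMod p) * (z : ZMod p))))
      ≤ m * (h + (1 / (V : ℝ) * T + (2 * (h / m : ℕ) : ℝ) * (2 * m * V))) :=
        mul_le_mul_of_nonneg_left (add_le_add b4 b2) hm0
    _ = m * h + (m * (1 / (V : ℝ) * T) + m * ((2 * (h / m : ℕ) : ℝ) * (2 * m * V))) := by ring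
    _ ≤ 2 * h * M * V + (M * (2 / (V : ℝ) * T) + 8 * h * M * V) := add_le_add c3 (add_le_add c1 c2)
    _ = _ := by ring

theorem SHG_nu (S : Finset (ZMod p)) (h M : ℕ) (hp : 2 * M < p) (g : ZMod p → ℝ) :
    ∑ r : ZMod p, (nu S h M r : ℝ) * g r =
      ∑ m ∈ Ioc M (2 * M), ∑ s ∈ S, ∑ x ∈ range h, g ((s + (x : ZMod p)) / (m : ZMod p)) := by
  have h1 : ∀ r : ZMod p, (nu S h M r : ℝ) * g r =
      ∑ m ∈ Ioc M (2 * M), ∑ z ∈ S ×ˢ range h,
        if z.1 + (z.2 : ZMod p) = (m : ZMod p) * r then g r else 0 := by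
    intro r
    unfold nu
    rw [Nat.cast_sum, sum_mul]
    refine sum_congr rfl fun m _ => ?_
    rw [← sum_filter, sum_const, nsmul_eq_mul]
  simp_rw [h1]
  rw [sum_comm]
  refine sum_congr rfl fun m hm => ?_
  rw [mem_Ioc] at hm
  have hm0 : (m : ZMod p) ≠ 0 := by
    intro h0
    rw [ZMod.natCast_eq_zero_iff] at h0
    have := Nat.le_of_dvd (by omega) h0
    omega
  rw [sum_comm, sum_product]
  refine sum_congr rfl fun s _ => sum_congr rfl fun x _ => ?_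
  have h2 : ∀ r : ZMod p, (s + (x : ZMod p) = (m : ZMod p) * r) ↔ (r = (s + (x : ZMod p)) / (m : ZMod p)) := by
    intro r
    rw [eq_div_iff hm0, mul_comm r, eq_comm]
  simp only [h2]
  rw [sum_ite_eq' univ _ g]
  simp

end

/-- **Row SHG**. -/
theorem SHG : SHG_stmt := by
  intro p _ χ ζ h M V S hM hMh hhp hV
  have hp : 2 * M < p := by omega
  have hM0 : (0 : ℝ) < M := by exact_mod_cast hM
  have hV1 : (1 : ℝ) ≤ V := by exact_mod_cast hV
  have hm0 : ∀ m ∈ Ioc M (2 * M), (m : ZMod p) ≠ 0 := by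
    intro m hm h0
    rw [mem_Ioc] at hm
    rw [ZMod.natCast_eq_zero_iff] at h0
    have := Nat.le_of_dvd (by omega) h0
    omega
  have h1 : ∀ s, RR χ ζ h M s ≤ ∑ m ∈ Ioc M (2 * M), (2 / (V : ℝ) *
      ∑ z ∈ (Icc (-((h / M : ℕ) : ℤ)) ((h / M : ℕ) : ℤ)).erase 0,
        ∑ x ∈ range h, cr χ V ((s + (x : ZMod p)) / (m : ZMod p)) (ζ * (z : ZMod p)) + 10 * h * V) := by
    intro s
    unfold RR
    rw [div_le_iff₀ hM0, sum_mul]
    refine sum_le_sum fun m hm => ?_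
    have h2 := mem_Ioc.1 hm
    refine (SHG_two χ ζ s h M m V hM h2.1 h2.2 (hm0 m hm) hV).trans (le_of_eq ?_)
    ring
  have h3 : ∑ s ∈ S, RR χ ζ h M s ≤ ∑ s ∈ S, ∑ m ∈ Ioc M (2 * M), (2 / (V : ℝ) *
      ∑ z ∈ (Icc (-((h / M : ℕ) : ℤ)) ((h / M : ℕ) : ℤ)).erase 0,
        ∑ x ∈ range h, cr χ V ((s + (x : ZMod p)) / (m : ZMod p)) (ζ * (z : ZMod p)) + 10 * h * V) :=
    sum_le_sum fun s _ => h1 s
  refine h3.trans ?_
  have h4 : ∑ s ∈ S, ∑ m ∈ Ioc M (2 * M), (2 / (V : ℝ) *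
      ∑ z ∈ (Icc (-((h / M : ℕ) : ℤ)) ((h / M : ℕ) : ℤ)).erase 0,
        ∑ x ∈ range h, cr χ V ((s + (x : ZMod p)) / (m : ZMod p)) (ζ * (z : ZMod p)) + 10 * h * V) =
      2 / (V : ℝ) * ∑ z ∈ (Icc (-((h / M : ℕ) : ℤ)) ((h / M : ℕ) : ℤ)).erase 0,
        ∑ r : ZMod p, (nu S h M r : ℝ) * cr χ V r (ζ * (z : ZMod p)) + 10 * S.card * h * M * V := by
    have e1 : ∀ z : ℤ, ∑ r : ZMod p, (nu S h M r : ℝ) * cr χ V r (ζ * (z : ZMod p)) =
        ∑ m ∈ Ioc M (2 * M), ∑ s ∈ S, ∑ x ∈ range h,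
          cr χ V ((s + (x : ZMod p)) / (m : ZMod p)) (ζ * (z : ZMod p)) := fun z =>
      SHG_nu S h M hp fun r => cr χ V r (ζ * (z : ZMod p))
    simp_rw [e1, sum_add_distrib]
    congr 1
    · rw [mul_sum]
      simp_rw [mul_sum]
      rw [sum_comm]
      have e2 : ∀ (m : ℕ), ∑ s ∈ S, ∑ z ∈ (Icc (-((h / M : ℕ) : ℤ)) ((h / M : ℕ) : ℤ)).erase 0,
          ∑ x ∈ range h, 2 / (V : ℝ) * cr χ V ((s + (x : ZMod p)) / (m : ZMod p)) (ζ * (z : ZMod p)) =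
          ∑ z ∈ (Icc (-((h / M : ℕ) : ℤ)) ((h / M : ℕ) : ℤ)).erase 0, ∑ s ∈ S,
          ∑ x ∈ range h, 2 / (V : ℝ) * cr χ V ((s + (x : ZMod p)) / (m : ZMod p)) (ζ * (z : ZMod p)) :=
        fun m => sum_comm
      simp_rw [e2]
      rw [sum_comm]
    · simp only [sum_const, Nat.card_Ioc, nsmul_eq_mul]
      rw [show 2 * M - M = M by omega]
      ring
  rw [h4]
  have h5 : (0 : ℝ) ≤ S.card * h * M * V := by positivity
  have h6 : 10 * (S.card : ℝ) * h * M * V ≤ 14 * S.card * h * M * V := by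
    calc 10 * (S.card : ℝ) * h * M * V = 10 * (S.card * h * M * V) := by ring
      _ ≤ 14 * (S.card * h * M * V) := by linarith
      _ = _ := by ring
  linarith

end Pool.Agent.SPI
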